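import Pool.Agent.V11198.CdcUnion
import Pool.Agent.Results.MP_0c3aa4_co.ThroughDominating

/-!
# MP_ff63d6_co: circuit double covers through every circuit of a near-Hamiltonian cubic graph

Let `G` be a cubic graph of order `n` with a circuit `A` of length at least `n - 1`, and let `C` be
any circuit of `G`.  Then `C` belongs to a circuit double cover of `G`.  This answers the question
(Fleischner) in the affirmative.

Idea of the proof. If every vertex lies on `A` or on `C`, then `G` is the union of `C`, of `A` and of
a third even subgraph: delete from `G` the edges of `A` and, if a vertex is missed by `A`, one of its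
`C`-edges; the rest can be completed along the circuit `A` to an even subgraph. A circuit which
covers the graph together with two even subgraphs belongs to a double cover by five even subgraphs
(`Pool.Agent.V11198.Cdc.cdc_of_union`, from `four_of_flows` of the starting library, a signed sum
over the completions of a symmetric matrix over the field with two elements).
If a vertex `v` lies neither on `A` nor on `C`, then `A` misses only `v`, so it is dominating and
`C` passes only through vertices of `A` (the known case): a double cover through `A` of the graph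
without the chords of `A` in `C` is changed by exchanging `A` for `C` and the circuits of the
symmetric difference.
-/

set_option autoImplicit false

open Finset

namespace Pool.Agent.Results.MP_ff63d6_co.NearHamiltonian

open Pool.Agent.Helper347.Sab
open Pool.Agent.W831.HI (circ_complete)
open Pool.Agent.V11198.Cdc (cdc_of_union)
open Pool.Agent.Results.MP_0c3aa4_co.ThroughDominating (exchange_reg)

variable {V E : Type} [Fintype V] [DecidableEq V] [Fintype E] [DecidableEq E]

/-- The circumference is at least `k`: some circuit has length (number of edges) at least `k`. -/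
def CircumferenceAtLeast (G : MGraph V E) (k : ℕ) : Prop :=
  ∃ A : Finset E, IsCircuit G A ∧ k ≤ A.card

theorem card_on (G : MGraph V E) (A : Finset E) (hA : IsCircuit G A) :
    (univ.filter fun v => dg G A v = 2).card = A.card := by
  have hsum : ∑ v, dg G A v = 2 * A.card := by
    unfold dg
    simp only [card_filter]
    rw [sum_comm]
    have : ∀ e ∈ A, ∑ v : V, (if v ∈ G.ends e then 1 else 0) = 2 := by
      intro e _
      rw [← card_filter, card_ends]
    rw [sum_congr rfl this, sum_const, smul_eq_mul, mul_comm]
  have h1 : ∑ v, dg G A v = ∑ v, (if dg G A v = 2 then 2 else 0) := by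
    refine sum_congr rfl fun v _ => ?_
    rcases hA.2.1 v with h | h <;> rw [h] <;> simp
  rw [h1, ← sum_filter, sum_const, smul_eq_mul] at hsum
  omega

/-- at most one vertex is missed -/
theorem off_unique (G : MGraph V E) (A : Finset E) (hA : IsCircuit G A)
    (hlen : Fintype.card V - 1 ≤ A.card) (u v : V) (hu : dg G A u = 0) (hv : dg G A v = 0) :
    u = v := by
  by_contra huv
  have h1 := card_on G A hA
  have h2 := card_filter_add_card_filter_not (s := (univ : Finset V)) (fun v => dg G A v = 2)
  rw [card_univ] at h2
  have h3 : ({u, v} : Finset V) ⊆ univ.filter (fun w => ¬ dg G A w = 2) := by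
    intro w hw
    rw [mem_insert, mem_singleton] at hw
    rw [mem_filter]
    refine ⟨mem_univ _, ?_⟩
    rcases hw with rfl | rfl <;> omega
  have h4 := card_le_card h3
  rw [card_pair huv] at h4
  omega

/-- every vertex lies on `A` or on `C` -/
theorem case_cover (G : MGraph V E) (hG : IsCubic G) (A C : Finset E) (hA : IsCircuit G A)
    (hC : IsCircuit G C) (huniq : ∀ u v, dg G A u = 0 → dg G A v = 0 → u = v)
    (hcov : ∀ v, dg G A v = 0 → dg G C v = 2) :
    ∃ F : Multiset (Finset E), IsCDC G F ∧ C ∈ F := by
  classical
  obtain ⟨P, hPC, hPA, hP⟩ : ∃ P : Finset E, P ⊆ C ∧ Disjoint P A ∧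
      ∀ v, dg G A v = 0 → Even (dg G ((univ \ A) \ P) v) := by
    by_cases h : ∃ v0, dg G A v0 = 0
    · obtain ⟨v0, hv0⟩ := h
      have hC0 := hcov v0 hv0
      obtain ⟨c, hc, hcv⟩ := exists_mem_of_dg_pos (G := G) (X := C) (v := v0) (by omega)
      have hcA : c ∉ A := fun h => by
        have := dg_pos_of_mem (G := G) h hcv
        omega
      refine ⟨{c}, singleton_subset_iff.2 hc, disjoint_singleton_left.2 hcA, fun v hv => ?_⟩
      have hvv : v = v0 := huniq v v0 hv hv0
      rw [hvv]
      have h1 := dg_sdiff (G := G) (subset_univ A) v0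
      have h2 := hG v0
      have h3 : ({c} : Finset E) ⊆ univ \ A := by
        rw [singleton_subset_iff, mem_sdiff]
        exact ⟨mem_univ _, hcA⟩
      have h4 := dg_sdiff (G := G) h3 v0
      have h5 : dg G ({c} : Finset E) v0 = 1 := by
        unfold dg
        rw [filter_singleton, if_pos hcv, card_singleton]
      have h6 : dg G ((univ \ A) \ {c}) v0 = 2 := by omega
      rw [h6]
      decide
    · push Not at h
      exact ⟨∅, empty_subset _, disjoint_empty_left _, fun v hv => absurd hv (h v)⟩
  obtain ⟨J, hJA, hJ⟩ := circ_complete G A ((univ \ A) \ P) hA (by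
    rw [disjoint_left]
    intro e he h
    rw [mem_sdiff, mem_sdiff] at h
    exact h.1.2 he) hP
  have hAe : Ev G A := by
    intro v; rcases hA.2.1 v with h | h <;> rw [h] <;> decide
  refine cdc_of_union G C A (((univ \ A) \ P) ∪ J) hC hAe hJ (fun e he => ?_)
  by_cases h : e ∈ A
  · exact Or.inl h
  · right
    rw [mem_union, mem_sdiff, mem_sdiff]
    exact Or.inl ⟨⟨mem_univ _, h⟩, fun hp => he (hPC hp)⟩

/-- some vertex lies neither on `A` nor on `C` -/
theorem case_miss (G : MGraph V E) (hG : IsCubic G) (A C : Finset E) (hA : IsCircuit G A)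
    (hC : IsCircuit G C) (huniq : ∀ u v, dg G A u = 0 → dg G A v = 0 → u = v)
    (v0 : V) (hv0 : dg G A v0 = 0) (hv0C : dg G C v0 = 0) :
    ∃ F : Multiset (Finset E), IsCDC G F ∧ C ∈ F := by
  classical
  suffices h : ∃ F : Multiset (Finset E), (∀ X ∈ F, IsCircuit G X) ∧
      (∀ e, F.countP (e ∈ ·) = 2) ∧ ∀ D, IsCircuit G D → D ⊆ C → D ∈ F by
    obtain ⟨F, h1, h2, h3⟩ := h
    exact ⟨F, ⟨h1, h2⟩, h3 C hC Subset.rfl⟩
  apply exchange_reg G C A hG hC.2.1 hA
  obtain ⟨K, hK⟩ : ∃ K, K = (univ : Finset E) \ (C \ A) := ⟨_, rfl⟩
  rw [← hK]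
  have hKmem : ∀ e, e ∈ K ↔ ¬ (e ∈ C ∧ e ∉ A) := by
    intro e
    rw [hK]; simp
  have hAK : A ⊆ K := by
    intro e he
    rw [hKmem]
    exact fun h => h.2 he
  have hdK : ∀ v, dg G K v + dg G (C \ A) v = 3 := by
    intro v
    rw [← hG v, hK]
    exact dg_sdiff (subset_univ _) v
  have hsum : ∀ v, dg G (C \ A) v + dg G A v ≤ 3 := by
    intro v
    have h1 : dg G (C ∪ A) v ≤ 3 := by
      rw [← hG v]
      exact dg_mono (subset_univ _) v
    have h2 : (C ∪ A) \ A = C \ A := by
      ext e; simp only [mem_sdiff, mem_union]; tauto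
    have h3 := dg_sdiff (G := G) (X := C ∪ A) (Y := A) subset_union_right v
    rw [h2] at h3
    omega
  have hoff : ∀ v, dg G A v = 0 → dg G K v = 3 := by
    intro v hv
    have h1 := hdK v
    have h2 := dg_mono (G := G) (sdiff_subset (s := C) (t := A)) v
    rw [huniq v v0 hv hv0] at h1 h2 ⊢
    omega
  have hon : ∀ v, dg G A v = 2 → dg G K v = 2 ∨ dg G K v = 3 := by
    intro v hv
    have h1 := hdK v
    have h2 := hsum v
    omega
  refine dominating_general G K A hAK hA hon (fun v hv => Or.inr (hoff v hv)) (fun e _ => ?_)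
  obtain ⟨a, b, hab, hends⟩ := exists_ends G e
  rcases hA.2.1 a with h1 | h1
  · rcases hA.2.1 b with h2 | h2
    · exact absurd (huniq a b h1 h2) hab
    · exact ⟨b, by rw [hends]; simp, h2⟩
  · exact ⟨a, by rw [hends]; simp, h1⟩

/-- **Q1 of MP_ff63d6_co, answered in the affirmative.** If `G` is a cubic graph of order `n` with
circumference at least `n - 1`, then every circuit `C` of `G` belongs to a circuit double cover. -/
theorem result {V E : Type} [Fintype V] [DecidableEq V] [Fintype E] [DecidableEq E]
    (G : MGraph V E) (hG : IsCubic G) (hcirc : CircumferenceAtLeast G (Fintype.card V - 1))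
    (C : Finset E) (hC : IsCircuit G C) :
    ∃ F : Multiset (Finset E), IsCDC G F ∧ C ∈ F := by
  obtain ⟨A, hA, hlen⟩ := hcirc
  have huniq := off_unique G A hA hlen
  by_cases h : ∃ v0, dg G A v0 = 0 ∧ dg G C v0 = 0
  · obtain ⟨v0, h1, h2⟩ := h
    exact case_miss G hG A C hA hC huniq v0 h1 h2
  · refine case_cover G hG A C hA hC huniq (fun v hv => ?_)
    exact (hC.2.1 v).resolve_left (fun h2 => h ⟨v, hv, h2⟩)

end Pool.Agent.Results.MP_ff63d6_co.NearHamiltonian
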